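import Mathlib

namespace Pool.Agent.H.MP_e00215_an

open Filter Topology Finset MeasureTheory ProbabilityTheory Complex
open scoped ComplexConjugate

/-- the shift -/
def sh (x : ℕ → ℝ) : ℕ → ℝ := fun n => x (n + 1)

/-- exponentials of finite linear forms -/
noncomputable def ex (a : ℕ →₀ ℝ) (x : ℕ → ℝ) : ℂ :=
  cexp ((Finsupp.linearCombination ℝ x a : ℝ) * I)

/-- shifted coefficients -/
noncomputable def sa (a : ℕ →₀ ℝ) (n : ℕ) : ℕ →₀ ℝ := a.mapDomain (· + n)

theorem sh_meas : Measurable sh := by
  unfold sh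
  fun_prop

theorem ex_meas (a : ℕ →₀ ℝ) : Measurable (ex a) := by
  unfold ex
  simp only [Finsupp.linearCombination_apply, Finsupp.sum]
  fun_prop

theorem ex_norm (a : ℕ →₀ ℝ) (x : ℕ → ℝ) : ‖ex a x‖ = 1 := norm_exp_ofReal_mul_I _

theorem ex_sub (a b : ℕ →₀ ℝ) (x : ℕ → ℝ) : ex (a - b) x = ex a x * conj (ex b x) := by
  simp only [ex, map_sub, ← exp_conj, ← Complex.exp_add, map_mul, conj_ofReal, conj_I]
  congr 1
  push_cast
  ring

theorem sh_iter (n : ℕ) (x : ℕ → ℝ) : sh^[n] x = x ∘ (· + n) := by
  induction n generalizing x with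
  | zero => rfl
  | succ n ih =>
    rw [Function.iterate_succ_apply, ih]
    rfl

theorem ex_sh (a : ℕ →₀ ℝ) (n : ℕ) (x : ℕ → ℝ) : ex a (sh^[n] x) = ex (sa a n) x := by
  rw [ex, ex, sa, Finsupp.linearCombination_mapDomain, sh_iter]

theorem int_bd {Y E : Type} [MeasurableSpace Y] [NormedAddCommGroup E] [MeasurableSpace E]
    [BorelSpace E] [SecondCountableTopology E] {μ : Measure Y} [IsFiniteMeasure μ] {f : Y → E}
    (hf : Measurable f) (C : ℝ) (h : ∀ y, ‖f y‖ ≤ C) : Integrable f μ :=
  Integrable.of_bound hf.aestronglyMeasurable C (ae_of_all _ h)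

theorem ex_int (a : ℕ →₀ ℝ) (ν : Measure (ℕ → ℝ)) [IsFiniteMeasure ν] : Integrable (ex a) ν :=
  int_bd (ex_meas a) 1 fun x => (ex_norm a x).le

theorem ext_ex {μ ν : Measure (ℕ → ℝ)} [IsFiniteMeasure μ] [IsFiniteMeasure ν]
    (h : ∀ a, ∫ x, ex a x ∂μ = ∫ x, ex a x ∂ν) : μ = ν := by
  classical
  refine IsProjectiveLimit.unique (P := fun J : Finset ℕ => μ.map J.restrict) (fun _ => rfl)
    fun J => Measure.ext_of_charFunDual (funext fun L => ?_)
  have h1 : ∀ x : ℕ → ℝ, cexp (L (J.restrict x) * I) =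
      ex (∑ i : J, Finsupp.single i.1 (L (Pi.single i 1))) x := fun x => by
    rw [ex, map_sum]
    congr 3
    conv_lhs => rw [← Finset.univ_sum_single (J.restrict x), map_sum]
    refine sum_congr rfl fun i _ => ?_
    rw [Finsupp.linearCombination_single, smul_eq_mul, mul_comm, ← smul_eq_mul, ← map_smul,
      ← Pi.single_smul, smul_eq_mul, mul_one]
    rfl
  rw [charFunDual_apply, charFunDual_apply, integral_map (by fun_prop) (by fun_prop),
    integral_map (by fun_prop) (by fun_prop)]
  simp only [h1, h]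

theorem sq_int {Y : Type} [MeasurableSpace Y] {μ : Measure Y} [IsProbabilityMeasure μ] {g : Y → ℝ}
    (hg : Measurable g) (C : ℝ) (h : ∀ y, ‖g y‖ ≤ C) : (∫ y, g y ∂μ) ^ 2 ≤ ∫ y, g y ^ 2 ∂μ := by
  have h1 := int_bd (μ := μ) hg C h
  have h2 := int_bd (μ := μ) (hg.pow_const 2) (C ^ 2) fun y => by
    rw [norm_pow]
    exact pow_le_pow_left₀ (norm_nonneg _) (h y) 2
  set m := ∫ y, g y ∂μ with hm
  have h3 : ∫ y, (2 * m * g y - m ^ 2) ∂μ ≤ ∫ y, g y ^ 2 ∂μ :=
    integral_mono ((h1.const_mul _).sub (integrable_const _)) h2 fun y => by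
      simp only
      nlinarith [sq_nonneg (g y - m)]
  rw [integral_sub (h1.const_mul _) (integrable_const _), integral_const_mul, ← hm] at h3
  simp only [integral_const, probReal_univ, smul_eq_mul, one_mul] at h3
  linarith

/-- decay of correlations in the mean -/
def WM (ν : Measure (ℕ → ℝ)) : Prop :=
  ∀ a, Tendsto (fun N : ℕ => (∑ n ∈ range N, ∑ m ∈ range N, ‖(∫ x, ex (sa a n - sa a m) x ∂ν) -
    (∫ x, ex a x ∂ν) * conj (∫ x, ex a x ∂ν)‖) / N ^ 2) atTop (𝓝 0)

theorem cov_eq {ν : Measure (ℕ → ℝ)} [IsProbabilityMeasure ν] (h : MeasurePreserving sh ν ν)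
    (a : ℕ →₀ ℝ) (n m : ℕ) :
    ∫ x, (ex (sa a n) x - ∫ x, ex a x ∂ν) * conj (ex (sa a m) x - ∫ x, ex a x ∂ν) ∂ν =
      (∫ x, ex (sa a n - sa a m) x ∂ν) - (∫ x, ex a x ∂ν) * conj (∫ x, ex a x ∂ν) := by
  have h1 : ∀ k, ∫ x, ex (sa a k) x ∂ν = ∫ x, ex a x ∂ν := fun k => by
    simp only [← ex_sh]
    rw [← integral_map (h.iterate k).measurable.aemeasurable (ex_meas a).aestronglyMeasurable,
      (h.iterate k).map_eq]
  set c := ∫ x, ex a x ∂ν
  have h2 : ∀ x, (ex (sa a n) x - c) * conj (ex (sa a m) x - c) =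
      ex (sa a n - sa a m) x - (ex (sa a n) x * conj c + c * conj (ex (sa a m) x) - c * conj c) :=
    fun x => by
      rw [ex_sub, map_sub]
      ring
  have h3 : Integrable (fun x => c * conj (ex (sa a m) x)) ν :=
    (int_bd (continuous_conj.measurable.comp (ex_meas _)) 1 fun x => by
      simp [ex_norm]).const_mul c
  have h4 := (ex_int (sa a n) ν).mul_const (conj c)
  have h5 : Integrable (fun x => ex (sa a n) x * conj c + c * conj (ex (sa a m) x)) ν := h4.add h3
  have h6 : Integrable (fun x => ex (sa a n) x * conj c + c * conj (ex (sa a m) x) - c * conj c) ν :=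
    h5.sub (integrable_const _)
  simp only [h2]
  rw [integral_sub (ex_int _ _) h6, integral_sub h5 (integrable_const _), integral_add h4 h3, integral_mul_const,
    integral_const_mul, integral_conj, h1, h1]
  simp

theorem prod_erg {Z : Type} [MeasurableSpace Z] {lam : Measure Z} [IsProbabilityMeasure lam]
    {R : Z → Z} (hR : Ergodic R lam) {ν : Measure (ℕ → ℝ)} [IsProbabilityMeasure ν]
    (h : MeasurePreserving sh ν ν) (hw : WM ν) : Ergodic (Prod.map R sh) (lam.prod ν) := by
  have hS := hR.toMeasurePreserving.prod h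
  refine ⟨hS, ⟨fun E hE hinv => ?_⟩⟩
  set P := lam.prod ν with hP
  set κ := (P.restrict E).map Prod.fst with hκ
  have hκa : ∀ D, MeasurableSet D → κ D = P (Prod.fst ⁻¹' D ∩ E) := fun D hD => by
    rw [hκ, Measure.map_apply measurable_fst hD, Measure.restrict_apply (measurable_fst hD)]
  have hκR : MeasurePreserving R κ κ := ⟨hR.measurable, Measure.ext fun D hD => by
    rw [Measure.map_apply hR.measurable hD, hκa _ (hR.measurable hD), hκa D hD,
      ← hS.measure_preimage ((measurable_fst hD).inter hE).nullMeasurableSet,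
      Set.preimage_inter, hinv]
    rfl⟩
  obtain ⟨c, hc⟩ := hR.eq_smul_of_absolutelyContinuous hκR (by
    have := (Measure.map_mono (Measure.restrict_le_self (μ := P) (s := E)) measurable_fst)
    rw [hP, Measure.map_fst_prod, measure_univ, one_smul] at this
    exact Measure.absolutelyContinuous_of_le this)
  have key : ∀ D, MeasurableSet D →
      (P.restrict (Prod.fst ⁻¹' D ∩ E)).map Prod.snd = κ D • ν := fun D hD => by
    have : IsFiniteMeasure (κ D • ν) := Measure.smul_finite _ (measure_ne_top _ _)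
    refine ext_ex fun a => ?_
    have hDE := (measurable_fst hD).inter hE
    rw [integral_map measurable_snd.aemeasurable (ex_meas a).aestronglyMeasurable,
      integral_smul_measure, hκa D hD, ← sub_eq_zero]
    set q := ∫ x, ex a x ∂ν with hq
    have hq1 : ‖q‖ ≤ 1 := by
      simpa using norm_integral_le_of_norm_le_const (μ := ν) (ae_of_all _ fun x => (ex_norm a x).le)
    set u : Z → ℂ := D.indicator 1 with hu
    have hum : Measurable u := measurable_one.indicator hD
    have hu1 : ∀ z, ‖u z‖ ≤ 1 := fun z => by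
      by_cases hz : z ∈ D <;> simp [hu, hz]
    set g : ℕ → Z × (ℕ → ℝ) → ℂ := fun n y => u (R^[n] y.1) * (ex (sa a n) y.2 - q) with hg
    have hgm : ∀ n, Measurable (g n) := fun n =>
      (hum.comp ((hR.measurable.iterate n).comp measurable_fst)).mul
        (((ex_meas _).comp measurable_snd).sub_const q)
    have hg2 : ∀ n y, ‖g n y‖ ≤ 2 := fun n y => by
      have := norm_sub_le (ex (sa a n) y.2) q
      rw [ex_norm] at this
      exact (norm_mul_le_of_le (hu1 _) this).trans (by linarith)
    set J := ∫ y in Prod.fst ⁻¹' D ∩ E, ex a y.2 ∂P - (P (Prod.fst ⁻¹' D ∩ E)).toReal • q with hJ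
    have h0 : J = ∫ y in E, g 0 y ∂P := by
      have : ∀ y, g 0 y = (Prod.fst ⁻¹' D).indicator (fun y => ex a y.2 - q) y := fun y => by
        by_cases hy : y.1 ∈ D <;> simp [hg, hu, hy, ← ex_sh]
      simp only [this]
      rw [setIntegral_indicator (measurable_fst hD), Set.inter_comm, integral_sub
        (int_bd (f := fun y : Z × (ℕ → ℝ) => ex a y.2) ((ex_meas a).comp measurable_snd) 1
          fun y => (ex_norm a y.2).le)
        (integrable_const _), setIntegral_const]
      rfl
    have h1 : ∀ n, J = ∫ y in E, g n y ∂P := fun n => by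
      have h2 := (hS.iterate n).restrict_preimage hE
      rw [Function.IsFixedPt.preimage_iterate hinv] at h2
      rw [h0]
      conv_lhs => rw [← h2.map_eq]
      rw [integral_map h2.measurable.aemeasurable (hgm 0).aestronglyMeasurable]
      simp only [hg, Prod.map_iterate, Prod.map_fst, Prod.map_snd, Function.iterate_zero, id,
        ← ex_sh]
    have h2 : ∀ N : ℕ, 0 < N → ‖J‖ ^ 2 ≤ (∑ n ∈ range N, ∑ m ∈ range N,
        ‖(∫ x, ex (sa a n - sa a m) x ∂ν) - q * conj q‖) / N ^ 2 := fun N hN => by
      have hG : Measurable fun y => ∑ n ∈ range N, g n y := by fun_prop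
      have hGb : ∀ y, ‖∑ n ∈ range N, g n y‖ ≤ N * 2 := fun y => by
        simpa using norm_sum_le_of_le (range N) fun n _ => hg2 n y
      have h3 : N * ‖J‖ ≤ ∫ y, ‖∑ n ∈ range N, g n y‖ ∂P := by
        have h3 : (N : ℂ) * J = ∫ y in E, ∑ n ∈ range N, g n y ∂P := by
          rw [integral_finsetSum _ fun n _ => int_bd (hgm n) 2 (hg2 n)]
          simp [← h1]
        rw [← Complex.norm_natCast, ← norm_mul, h3]
        exact (norm_integral_le_integral_norm _).trans (setIntegral_le_integral
          (int_bd hG _ hGb).norm (ae_of_all _ fun y => norm_nonneg _))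
      have hgg : ∀ n m, Integrable (fun y => g n y * conj (g m y)) P := fun n m =>
        int_bd ((hgm n).mul (continuous_conj.measurable.comp (hgm m))) (2 * 2) fun y =>
          norm_mul_le_of_le (hg2 n y) (by simpa using hg2 m y)
      have h4 : ((∫ y, ‖∑ n ∈ range N, g n y‖ ^ 2 ∂P : ℝ) : ℂ) =
          ∑ n ∈ range N, ∑ m ∈ range N, ∫ y, g n y * conj (g m y) ∂P := by
        rw [← integral_complex_ofReal]
        simp only [ofReal_pow, ← mul_conj', map_sum, sum_mul_sum]
        rw [integral_finsetSum _ fun n _ => integrable_finsetSum _ fun m _ => hgg n m]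
        exact sum_congr rfl fun n _ => integral_finsetSum _ fun m _ => hgg n m
      have h5 : ∀ n m, ‖∫ y, g n y * conj (g m y) ∂P‖ ≤
          ‖(∫ x, ex (sa a n - sa a m) x ∂ν) - q * conj q‖ := fun n m => by
        have h5 := integral_prod_mul (μ := lam) (ν := ν)
          (fun z => u (R^[n] z) * conj (u (R^[m] z)))
          (fun x => (ex (sa a n) x - q) * conj (ex (sa a m) x - q))
        rw [cov_eq h] at h5
        simp only [hg, map_mul (starRingEnd ℂ), mul_mul_mul_comm (u _)]
        rw [h5, norm_mul]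
        refine mul_le_of_le_one_left (norm_nonneg _) ?_
        simpa using norm_integral_le_of_norm_le_const (μ := lam) (C := 1 * 1)
          (f := fun z => u (R^[n] z) * conj (u (R^[m] z)))
          (ae_of_all _ fun z => norm_mul_le_of_le (hu1 _) (by simpa using hu1 _))
      rw [le_div_iff₀ (by positivity), ← mul_pow, mul_comm]
      refine (pow_le_pow_left₀ (by positivity) h3 2).trans ((sq_int hG.norm (N * 2)
        fun y => by simpa using hGb y).trans ((le_abs_self _).trans ?_))
      rw [← Real.norm_eq_abs, ← norm_real, h4]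
      exact norm_sum_le_of_le _ fun n _ => norm_sum_le_of_le _ fun m _ => h5 n m
    have h3 := ge_of_tendsto (hw a) ((eventually_gt_atTop 0).mono h2)
    exact norm_eq_zero.1 (pow_eq_zero_iff two_ne_zero |>.1 (le_antisymm h3 (sq_nonneg _)))
  have h1 : κ.prod ν = P.restrict E := Measure.prod_eq fun D F hD hF => by
    have h2 := congrArg (· F) (key D hD)
    simp only [Measure.smul_apply, smul_eq_mul] at h2
    rw [← h2, Measure.map_apply measurable_snd hF, Measure.restrict_apply (measurable_snd hF),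
      Measure.restrict_apply (hD.prod hF), Set.prod_eq, ← Set.inter_assoc,
      Set.inter_comm (Prod.snd ⁻¹' F)]
  rw [hc, Measure.prod_smul_left] at h1
  have h2 := congrArg (· Eᶜ) h1
  have h3 := congrArg (· Set.univ) h1
  simp only [Measure.smul_apply, smul_eq_mul, Measure.restrict_apply hE.compl,
    Set.compl_inter_self, measure_empty, mul_eq_zero, measure_univ, mul_one,
    Measure.restrict_apply_univ] at h2 h3
  rw [eventuallyConst_set', ae_eq_empty, ae_eq_univ, ← h3]
  exact h2

theorem chi_pi (μ : Measure ℝ) [IsProbabilityMeasure μ] (a : ℕ →₀ ℝ) :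
    ∫ x, ex a x ∂(Measure.infinitePi fun _ => μ) = a.prod fun _ c => charFun μ c := by
  have h := iIndepFun.integral_fun_prod_comp ((iIndepFun_infinitePi (P := fun _ : ℕ => μ)
    (X := fun _ x => x) (by fun_prop)).precomp (g := ((↑) : a.support → ℕ)) Subtype.val_injective)
    (f := fun (i : a.support) (t : ℝ) => cexp (a i * t * I))
    (fun i => (measurable_pi_apply _).aemeasurable) (by fun_prop)
  rw [Finsupp.prod, ← prod_coe_sort]
  refine (integral_congr_ae (ae_of_all _ fun x => ?_)).trans
    (h.trans (prod_congr rfl fun i _ => Eq.symm ?_))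
  · rw [ex, ← Complex.exp_sum, Finsupp.linearCombination_apply, Finsupp.sum, ← sum_mul,
      ← sum_coe_sort]
    simp
  · rw [charFun_apply_real, ← integral_map (φ := fun x : ℕ → ℝ => x i)
      (f := fun t => cexp (a i * t * I)) (measurable_pi_apply _).aemeasurable (by fun_prop),
      Measure.infinitePi_map_eval]

theorem pi_pres (μ : Measure ℝ) [IsProbabilityMeasure μ] :
    MeasurePreserving sh (Measure.infinitePi fun _ => μ) (Measure.infinitePi fun _ => μ) :=
  ⟨sh_meas, Measure.map_infinitePi_infinitePi_of_inj (P := fun _ : ℕ => μ) Nat.succ_injective⟩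

theorem pi_WM (μ : Measure ℝ) [IsProbabilityMeasure μ] : WM (Measure.infinitePi fun _ => μ) := by
  classical
  intro a
  obtain ⟨L, hL⟩ := a.support.exists_nat_subset_range
  set q := ∫ x, ex a x ∂(Measure.infinitePi fun _ => μ) with hq
  have h1 : ∀ n, ∀ i ∈ (sa a n).support, n ≤ i ∧ i < n + L := fun n i hi => by
    obtain ⟨j, hj, rfl⟩ := mem_image.1 (Finsupp.mapDomain_support hi)
    have := mem_range.1 (hL hj)
    omega
  have h2 : ∀ n, ∫ x, ex (sa a n) x ∂(Measure.infinitePi fun _ => μ) = q := fun n => by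
    rw [hq, chi_pi, chi_pi, sa, Finsupp.prod_mapDomain_index_inj (add_left_injective n)]
  have h3 : ∀ n m, ‖(∫ x, ex (sa a n - sa a m) x ∂(Measure.infinitePi fun _ => μ)) - q * conj q‖ ≤
      if m ∈ Ioo (n - L - 1) (n + L) ∪ {0} then 2 else 0 := fun n m => by
    split_ifs with h
    · have h4 : ∀ b, ‖∫ x, ex b x ∂(Measure.infinitePi fun _ => μ)‖ ≤ 1 := fun b => by
        simpa using norm_integral_le_of_norm_le_const (μ := Measure.infinitePi fun _ => μ)
          (ae_of_all _ fun x => (ex_norm b x).le)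
      refine (norm_sub_le_of_le (h4 _) (norm_mul_le_of_le (h4 a) (r₂ := 1)
        (by simpa using h4 a))).trans (by norm_num)
    · rw [sub_eq_add_neg (sa a n), chi_pi, Finsupp.prod_add_index_of_disjoint, ← chi_pi, ← chi_pi,
        h2, ← zero_sub (sa a m), ← h2 m, ← integral_conj]
      · simp only [ex_sub]
        simp [ex]
      · rw [Finsupp.support_neg, disjoint_left]
        intro i h4 h5
        have := h1 n i h4
        have := h1 m i h5
        simp only [mem_union, mem_Ioo, mem_singleton] at h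
        omega
  refine squeeze_zero' (Eventually.of_forall fun N => by positivity)
    ((eventually_gt_atTop 0).mono fun N hN => ?_)
    (tendsto_const_div_atTop_nhds_zero_nat ((2 * L + 2 : ℕ) * 2 : ℝ))
  have h4 : (0 : ℝ) < N := by exact_mod_cast hN
  rw [div_le_div_iff₀ (by positivity) h4, sq, ← mul_assoc]
  gcongr
  rw [mul_comm _ (N : ℝ)]
  refine (sum_le_card_nsmul _ _ ((2 * L + 2 : ℕ) * 2 : ℝ) fun n _ =>
    (sum_le_sum fun m _ => h3 n m).trans ?_).trans (by simp)
  rw [← sum_filter, sum_const, nsmul_eq_mul]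
  gcongr
  refine (card_le_card fun m hm => (mem_filter.1 hm).2).trans ((card_union_le _ _).trans ?_)
  rw [Nat.card_Ioo, card_singleton]
  omega

end Pool.Agent.H.MP_e00215_an
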