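import Pool.Agent.H.MP_e00215_an.A

namespace Pool.Agent.H.MP_e00215_an

open Filter Topology Finset MeasureTheory ProbabilityTheory Complex InnerProductSpace
open scoped ComplexConjugate

theorem gauss {H : Type} [NormedAddCommGroup H] [InnerProductSpace ℝ H] (v : ℕ → H) :
    ∃ ν : Measure (ℕ → ℝ), IsProbabilityMeasure ν ∧
      ∀ a, ∫ x, ex a x ∂ν = cexp (-(‖Finsupp.linearCombination ℝ v a‖ ^ 2 / 2 : ℝ)) := by
  set u := gramSchmidt ℝ v with hu
  have h1 : ∀ n, ∃ b : ℕ →₀ ℝ, Finsupp.linearCombination ℝ u b = v n := fun n =>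
    Finsupp.mem_span_range_iff_exists_finsupp.1 (Submodule.span_mono (Set.image_subset_range _ _)
      (mem_span_gramSchmidt ℝ v (le_refl n)))
  choose b hb using h1
  set X : (ℕ → ℝ) → ℕ → ℝ := fun ω n => Finsupp.linearCombination ℝ (fun k => ‖u k‖ * ω k) (b n)
    with hX
  have hXm : Measurable X := by
    refine measurable_pi_lambda _ fun n => ?_
    simp only [hX, Finsupp.linearCombination_apply, Finsupp.sum]
    fun_prop
  refine ⟨(Measure.infinitePi fun _ => gaussianReal 0 1).map X,
    Measure.isProbabilityMeasure_map hXm.aemeasurable, fun a => ?_⟩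
  set d := Finsupp.linearCombination ℝ b a with hd
  set d' : ℕ →₀ ℝ := Finsupp.onFinset d.support (fun k => d k * ‖u k‖) fun k hk =>
    Finsupp.mem_support_iff.2 (left_ne_zero_of_mul hk) with hd'
  have h2 : ∀ ω, ex a (X ω) = ex d' ω := fun ω => by
    have h2 := Finsupp.apply_linearCombination ℝ
      (Finsupp.linearCombination ℝ fun k => ‖u k‖ * ω k) b a
    rw [ex, ex, show Finsupp.linearCombination ℝ (X ω) a = _ from h2.symm, ← hd,
      Finsupp.linearCombination_apply, Finsupp.linearCombination_apply,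
      Finsupp.sum_of_support_subset d' Finsupp.support_onFinset_subset _ (by simp), Finsupp.sum]
    simp [hd', mul_assoc]
  have h3 : ‖Finsupp.linearCombination ℝ v a‖ ^ 2 = ∑ k ∈ d.support, (d k * ‖u k‖) ^ 2 := by
    have h3 := Finsupp.apply_linearCombination ℝ (Finsupp.linearCombination ℝ u) b a
    rw [show Finsupp.linearCombination ℝ u ∘ b = v from funext hb] at h3
    rw [← h3, ← hd, Finsupp.linearCombination_apply, Finsupp.sum, ← real_inner_self_eq_norm_sq,
      sum_inner]
    refine sum_congr rfl fun k hk => ?_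
    rw [inner_sum, sum_eq_single k (fun j _ hj => by
      rw [real_inner_smul_left, real_inner_smul_right, gramSchmidt_orthogonal ℝ v hj.symm]
      simp) (fun h => absurd hk h), real_inner_self_eq_norm_sq, norm_smul, mul_pow, mul_pow,
      Real.norm_eq_abs, sq_abs]
  rw [integral_map hXm.aemeasurable (ex_meas a).aestronglyMeasurable]
  simp only [h2]
  rw [chi_pi, Finsupp.prod_of_support_subset d' Finsupp.support_onFinset_subset _ (by simp), h3]
  simp [charFun_gaussianReal, ← Complex.exp_sum, hd', sum_div]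

theorem cint (σ : Measure (AddCircle (1 : ℝ))) [IsFiniteMeasure σ] {E : Type}
    [NormedAddCommGroup E] {f : AddCircle (1 : ℝ) → E} (hf : Continuous f) : Integrable f σ :=
  hf.integrable_of_hasCompactSupport (HasCompactSupport.of_compactSpace f)

theorem f_norm (k : ℤ) (s : AddCircle (1 : ℝ)) : ‖fourier k s‖ = 1 := Circle.norm_coe _

theorem f_sub (k : ℤ) (s t : AddCircle (1 : ℝ)) :
    fourier k (s - t) = fourier k s * conj (fourier k t) := by
  rw [← fourier_neg, fourier_apply, fourier_apply, fourier_apply, smul_sub, sub_eq_add_neg,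
    AddCircle.toCircle_add, neg_smul, Circle.coe_mul]

theorem f_pow (n : ℕ) (s : AddCircle (1 : ℝ)) : fourier n s = fourier 1 s ^ n := by
  induction n with
  | zero => simp
  | succ n ih => rw [Nat.cast_succ, fourier_add, ih, pow_succ]

theorem f_ne {s : AddCircle (1 : ℝ)} (h : s ≠ 0) : fourier 1 s ≠ 1 := fun h1 => h (by
  refine AddCircle.injective_toCircle one_ne_zero (Circle.ext ?_)
  rw [← fourier_one, h1]
  simp)

theorem wiener (σ : Measure (AddCircle (1 : ℝ))) [IsFiniteMeasure σ] [NullSingletonClass σ]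
    {g : AddCircle (1 : ℝ) → ℝ} (hg : Continuous g) :
    Tendsto (fun N : ℕ => (∑ n ∈ range N, ∑ m ∈ range N,
      ‖∫ s, fourier n s * conj (fourier m s) * g s ∂σ‖) / N ^ 2) atTop (𝓝 0) := by
  have ci : ∀ {E : Type} [NormedAddCommGroup E] {f : AddCircle (1 : ℝ) × AddCircle (1 : ℝ) → E},
      Continuous f → Integrable f (σ.prod σ) := fun hf =>
    hf.integrable_of_hasCompactSupport (HasCompactSupport.of_compactSpace _)
  have h1 : ∀ N : ℕ, (∑ n ∈ range N, ∑ m ∈ range N,
      ‖∫ s, fourier n s * conj (fourier m s) * g s ∂σ‖ ^ 2) / N ^ 2 =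
      ∫ z, (‖∑ n ∈ range N, fourier n (z.1 - z.2)‖ / N) ^ 2 * (g z.1 * g z.2) ∂σ.prod σ := by
    intro N
    simp only [div_pow, div_mul_eq_mul_div]
    rw [integral_div]
    congr 1
    refine ofReal_injective ?_
    rw [← integral_complex_ofReal]
    simp only [ofReal_sum, ofReal_pow, ofReal_mul, ← mul_conj', map_sum, sum_mul_sum]
    simp only [sum_mul]
    rw [integral_finsetSum _ fun n _ => ci (by fun_prop)]
    refine sum_congr rfl fun n _ => ?_
    rw [integral_finsetSum _ fun n _ => ci (by fun_prop)]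
    refine sum_congr rfl fun m _ => ?_
    rw [← integral_conj, ← integral_prod_mul]
    congr 1
    ext z
    simp only [f_sub, map_mul, conj_ofReal, conj_conj]
    ring
  have h2 : Tendsto (fun N : ℕ => (∑ n ∈ range N, ∑ m ∈ range N,
      ‖∫ s, fourier n s * conj (fourier m s) * g s ∂σ‖ ^ 2) / N ^ 2) atTop (𝓝 0) := by
    simp only [h1]
    have h2 : ∀ᵐ z ∂σ.prod σ, z.1 ≠ z.2 := (Measure.ae_prod_iff_ae_ae
      (measurableSet_eq_fun measurable_fst measurable_snd).compl).2
        (ae_of_all _ fun s => (Measure.ae_ne σ s).mono fun _ h => h.symm)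
    have := tendsto_integral_of_dominated_convergence (μ := σ.prod σ) (f := fun _ => (0 : ℝ))
      (F := fun (N : ℕ) z => (‖∑ n ∈ range N, fourier n (z.1 - z.2)‖ / N) ^ 2 * (g z.1 * g z.2))
      (fun z => ‖g z.1 * g z.2‖) (fun N => Continuous.aestronglyMeasurable (by fun_prop))
      (ci (by fun_prop)) (fun N => ae_of_all _ fun z => ?_) (h2.mono fun z hz => ?_)
    · simpa using this
    · rw [norm_mul]
      refine mul_le_of_le_one_left (norm_nonneg _) ?_
      rw [norm_pow, Real.norm_of_nonneg (by positivity)]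
      refine pow_le_one₀ (by positivity) (div_le_one_of_le₀ ?_ (Nat.cast_nonneg _))
      simpa using norm_sum_le_of_le (range N) fun n _ => (f_norm n (z.1 - z.2)).le
    · have h3 := f_ne (sub_ne_zero.2 hz)
      have h4 : Tendsto (fun N : ℕ => ‖∑ n ∈ range N, fourier n (z.1 - z.2)‖ / N) atTop (𝓝 0) := by
        refine squeeze_zero (fun N => by positivity) (fun N => ?_)
          (tendsto_const_div_atTop_nhds_zero_nat (2 / ‖fourier 1 (z.1 - z.2) - 1‖))
        simp only [f_pow]
        rw [geom_sum_eq h3, norm_div]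
        gcongr
        refine (norm_sub_le _ _).trans ?_
        rw [norm_pow, f_norm]
        norm_num
      simpa using (h4.pow 2).mul_const (g z.1 * g z.2)
  have h3 := h2.sqrt
  rw [Real.sqrt_zero] at h3
  refine squeeze_zero' (Eventually.of_forall fun N => by positivity)
    ((eventually_gt_atTop 0).mono fun N hN => Real.le_sqrt_of_sq_le ?_) h3
  have h4 : (0 : ℝ) < N := by exact_mod_cast hN
  rw [← sum_product', ← sum_product', div_pow, div_le_div_iff₀ (by positivity) (by positivity)]
  refine (mul_le_mul_of_nonneg_right sq_sum_le_card_mul_sum_sq (by positivity)).trans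
    (le_of_eq ?_)
  simp only [card_product, card_range]
  push_cast
  ring

/-- trigonometric polynomials -/
noncomputable def tp (a : ℕ →₀ ℝ) : C(AddCircle (1 : ℝ), ℂ) :=
  Finsupp.linearCombination ℝ (fun n : ℕ => fourier n) a

theorem tp_sa (a : ℕ →₀ ℝ) (n : ℕ) (s : AddCircle (1 : ℝ)) :
    tp (sa a n) s = fourier n s * tp a s := by
  simp only [tp, sa, Finsupp.linearCombination_mapDomain]
  simp only [Finsupp.linearCombination_apply, Finsupp.sum, ContinuousMap.sum_apply, mul_sum,
    Function.comp, Nat.cast_add, ContinuousMap.smul_apply, fourier_add, real_smul]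
  exact sum_congr rfl fun k _ => by ring

theorem gproc (σ : Measure (AddCircle (1 : ℝ))) [IsFiniteMeasure σ] [NullSingletonClass σ] :
    ∃ ν : Measure (ℕ → ℝ), IsProbabilityMeasure ν ∧ MeasurePreserving sh ν ν ∧ WM ν ∧
      ∀ a, ∫ x, ex a x ∂ν = Real.exp (-((∫ s, ‖tp a s‖ ^ 2 ∂σ) / 2)) := by
  obtain ⟨ν, h1, h2⟩ := gauss fun n : ℕ => ContinuousMap.toLp (E := ℂ) 2 σ ℝ (fourier n)
  have h3 : ∀ a, ∫ x, ex a x ∂ν = Real.exp (-((∫ s, ‖tp a s‖ ^ 2 ∂σ) / 2)) := fun a => by
    have h3 := Finsupp.apply_linearCombination ℝ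
      (ContinuousMap.toLp (E := ℂ) 2 σ ℝ).toLinearMap (fun n : ℕ => fourier n) a
    rw [h2, show Finsupp.linearCombination ℝ (fun n : ℕ => ContinuousMap.toLp (E := ℂ) 2 σ ℝ
      (fourier n)) a = ContinuousMap.toLp (E := ℂ) 2 σ ℝ (tp a) from h3.symm,
      ← real_inner_self_eq_norm_sq, L2.inner_def, integral_congr_ae
        ((ContinuousMap.coeFn_toLp (p := 2) (𝕜 := ℝ) σ (tp a)).mono fun s hs => by
          simp only [hs, real_inner_self_eq_norm_sq]
          rfl)]
    simp
  have h4 : ∀ a n, ∫ s, ‖tp (sa a n) s‖ ^ 2 ∂σ = ∫ s, ‖tp a s‖ ^ 2 ∂σ := fun a n => by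
    simp only [tp_sa, norm_mul, f_norm, one_mul]
  refine ⟨ν, h1, ⟨sh_meas, ext_ex fun a => ?_⟩, fun a => ?_, h3⟩
  · rw [integral_map sh_meas.aemeasurable (ex_meas a).aestronglyMeasurable]
    have := ex_sh a 1
    simp only [Function.iterate_one] at this
    simp only [this, h3, h4]
  refine squeeze_zero (fun N => by positivity) (fun N => ?_)
    (wiener σ (g := fun s => ‖tp a s‖ ^ 2) (by fun_prop))
  gcongr with n _ m _
  set Q := ∫ s, ‖tp a s‖ ^ 2 ∂σ with hQ
  set c := ∫ s, fourier n s * conj (fourier m s) * (‖tp a s‖ ^ 2 : ℝ) ∂σ with hc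
  have h5 : ‖c‖ ≤ Q := (norm_integral_le_integral_norm _).trans (le_of_eq (by
    simp only [norm_mul, norm_conj, f_norm, one_mul, norm_real, norm_pow, norm_norm, hQ]))
  have h6 : ∫ s, ‖tp (sa a n - sa a m) s‖ ^ 2 ∂σ = 2 * Q - 2 * c.re := by
    have h6 := integral_re (𝕜 := ℂ) (cint σ (f := fun s => fourier n s * conj (fourier m s) *
      (‖tp a s‖ ^ 2 : ℝ)) (by fun_prop))
    rw [RCLike.re_to_complex, ← hc] at h6
    rw [← h6, hQ, ← integral_const_mul, ← integral_const_mul,
      ← integral_sub (cint σ (by fun_prop)) (cint σ (by fun_prop))]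
    congr 1
    ext s
    rw [tp, map_sub, ContinuousMap.sub_apply, ← tp, ← tp, tp_sa, tp_sa, ← sub_mul, norm_mul,
      mul_pow, ← normSq_eq_norm_sq (_ - _), normSq_sub, normSq_eq_norm_sq, normSq_eq_norm_sq, f_norm,
      f_norm, RCLike.re_to_complex, re_mul_ofReal]
    ring
  rw [h3, h3, h6, conj_ofReal, ← ofReal_mul, ← ofReal_sub, norm_real, ← Real.exp_add,
    show -((2 * Q - 2 * c.re) / 2) = c.re - Q by ring, show -(Q / 2) + -(Q / 2) = -Q by ring,
    Real.norm_eq_abs]
  have h7 := abs_le.1 ((abs_re_le_norm c).trans h5)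
  refine le_trans ?_ (abs_re_le_norm c)
  have h8 := (convex_Iic (0 : ℝ)).norm_image_sub_le_of_norm_deriv_le (𝕜 := ℝ) (f := Real.exp)
    (C := 1) (fun x _ => Real.differentiableAt_exp) (fun x hx => by
      rw [Real.deriv_exp, Real.norm_of_nonneg (Real.exp_pos x).le]
      exact Real.exp_le_one_iff.2 hx) (x := -Q) (y := c.re - Q)
    (by simp only [Set.mem_Iic]; linarith [h7.1, h7.2]) (by simp only [Set.mem_Iic]; linarith [h7.2])
  simpa using h8

end Pool.Agent.H.MP_e00215_an
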