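import Pool.Agent.H.MP_e00215_an.B

namespace Pool.Agent.H.MP_e00215_an

open Filter Topology Finset MeasureTheory ProbabilityTheory Complex
open scoped ComplexConjugate

theorem int_fourier (k : ℤ) :
    ∫ s : AddCircle (1 : ℝ), fourier k s = if k = 0 then 1 else 0 := by
  have e := congrFun (fourierCoeff_fourier (T := 1) k) 0
  rw [fourierCoeff, AddCircle.integral_haarAddCircle] at e
  simp only [neg_zero, fourier_zero, one_smul, inv_one] at e
  rw [e, Pi.single_apply]
  simp only [eq_comm]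

theorem int_comp {X E : Type} [MeasurableSpace X] {μ : Measure X} {T : X → X}
    (hT : MeasurePreserving T μ μ) [NormedAddCommGroup E] [NormedSpace ℝ E] [MeasurableSpace E]
    [BorelSpace E] [SecondCountableTopology E] {f : X → E} (hf : Measurable f) :
    ∫ x, f (T x) ∂μ = ∫ x, f x ∂μ := by
  rw [← integral_map hT.measurable.aemeasurable hf.aestronglyMeasurable, hT.map_eq]

theorem herg {X : Type} [MeasurableSpace X] {μ : Measure X} [IsProbabilityMeasure μ] {T : X → X}
    (hT : MeasurePreserving T μ μ) {f : X → ℝ} (hf : Measurable f) (hb : ∀ x, ‖f x‖ ≤ 1) :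
    ∃ ρ : Measure (AddCircle (1 : ℝ)), IsProbabilityMeasure ρ ∧ ∀ k : ℕ, k ≠ 0 →
      ∫ s, fourier k s ∂ρ = (∫ x, f x * f (T^[k] x) ∂μ : ℝ) := by
  set φ : ℕ → ℕ → ℝ := fun n m => ∫ x, f (T^[n] x) * f (T^[m] x) ∂μ with hφ
  have hm : ∀ n, Measurable fun x => f (T^[n] x) := fun n => hf.comp (hT.measurable.iterate n)
  have h1 : ∀ n k, φ n (n + k) = φ 0 k := fun n k => by
    simp only [hφ, add_comm n k, Function.iterate_add_apply]
    exact int_comp (hT.iterate n) (f := fun x => f x * f (T^[k] x)) ((hm 0).mul (hm k))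
  have h2 : φ 0 0 ≤ 1 := (le_abs_self _).trans (by
    simpa [hφ] using norm_integral_le_of_norm_le_const (μ := μ) (C := 1 * 1)
      (f := fun x => f (T^[0] x) * f (T^[0] x)) (ae_of_all _ fun x => norm_mul_le_of_le (hb _) (hb _)))
  set D : ℕ → AddCircle (1 : ℝ) → ℂ := fun N s => (1 - φ 0 0 : ℝ) + (∑ n ∈ range (N + 1),
    ∑ m ∈ range (N + 1), φ n m * fourier (n - m) s) / (N + 1 : ℕ) with hD
  have h3 : ∀ N s, ∃ r : ℝ, 0 ≤ r ∧ D N s = r := fun N s => by
    refine ⟨1 - φ 0 0 + (∫ x, ‖∑ n ∈ range (N + 1), (f (T^[n] x) : ℂ) * fourier n s‖ ^ 2 ∂μ) /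
      (N + 1 : ℕ), add_nonneg (sub_nonneg.2 h2) (by positivity), ?_⟩
    have hi : ∀ n m : ℕ, Integrable (fun x => ((f (T^[n] x) * f (T^[m] x) : ℝ) : ℂ) *
        fourier (n - m) s) μ := fun n m =>
      (int_bd ((hm n).mul (hm m)) (1 * 1) fun x =>
        norm_mul_le_of_le (hb _) (hb _)).ofReal.mul_const _
    have h4 : ∀ x, ((‖∑ n ∈ range (N + 1), (f (T^[n] x) : ℂ) * fourier n s‖ ^ 2 : ℝ) : ℂ) =
        ∑ n ∈ range (N + 1), ∑ m ∈ range (N + 1), ((f (T^[n] x) * f (T^[m] x) : ℝ) : ℂ) *
          fourier (n - m) s := fun x => by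
      simp only [ofReal_pow, ← mul_conj', map_sum, sum_mul_sum, sub_eq_add_neg, fourier_add,
        fourier_neg, map_mul, conj_ofReal, ofReal_mul]
      exact sum_congr rfl fun n _ => sum_congr rfl fun m _ => by ring
    rw [ofReal_add, ofReal_div, ← integral_complex_ofReal]
    simp only [h4]
    rw [integral_finsetSum _ fun n _ => integrable_finsetSum _ fun m _ => hi n m]
    simp only [integral_finsetSum _ fun m _ => hi _ m, integral_mul_const, integral_complex_ofReal,
      hD, hφ, ofReal_natCast]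
  have hc : ∀ N, Continuous (D N) := fun N => by
    simp only [hD]
    fun_prop
  have key : ∀ N k : ℕ, ∫ s, fourier k s ∂(volume.withDensity fun s => (D N s).re.toNNReal) =
      ((if k = 0 then 1 - φ 0 0 else 0) + (N + 1 - k : ℕ) / (N + 1 : ℕ) * φ 0 k : ℝ) := by
    intro N k
    rw [integral_withDensity_eq_integral_smul (by have := hc N; fun_prop)]
    have e : ∀ s, (D N s).re.toNNReal • fourier k s = (1 - φ 0 0 : ℝ) * fourier k s +
        (∑ n ∈ range (N + 1), ∑ m ∈ range (N + 1), φ n m * fourier (n - m + k) s) / (N + 1 : ℕ) := by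
      intro s
      obtain ⟨r, hr, hs⟩ := h3 N s
      rw [NNReal.smul_def, real_smul, hs, ofReal_re, Real.coe_toNNReal _ hr, ← hs, hD]
      simp only [fourier_add, ← mul_assoc, ← sum_mul]
      ring
    simp only [e]
    rw [integral_add (cint _ (by fun_prop)) (cint _ (by fun_prop)), integral_div,
      integral_finsetSum _ fun n _ => cint _ (by fun_prop), integral_const_mul, int_fourier]
    have e2 : ∀ n ∈ range (N + 1), ∫ s : AddCircle (1 : ℝ), ∑ m ∈ range (N + 1),
        (φ n m : ℂ) * fourier (n - m + k) s = if n ∈ range (N + 1 - k) then (φ 0 k : ℂ) else 0 := by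
      intro n _
      rw [integral_finsetSum _ fun n _ => cint _ (by fun_prop)]
      simp only [integral_const_mul, int_fourier]
      split_ifs with h
      · rw [sum_eq_single_of_mem (n + k) (by simp only [mem_range] at h ⊢; omega)
          (fun m _ h => by rw [if_neg (by omega), mul_zero]), if_pos (by omega), h1, mul_one]
      · refine sum_eq_zero fun m hm => ?_
        simp only [mem_range] at h hm
        rw [if_neg (by omega), mul_zero]
    rw [sum_congr rfl e2, sum_ite_mem, inter_eq_right.2 (range_subset_range.2 (Nat.sub_le _ _)),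
      sum_const, card_range, nsmul_eq_mul]
    split_ifs with h h' h'
    any_goals omega
    all_goals
      push_cast
      ring
  have hp : ∀ N, IsProbabilityMeasure (volume.withDensity fun s => (D N s).re.toNNReal) := by
    intro N
    have := key N 0
    simp only [Nat.cast_zero, fourier_zero, integral_const, real_smul, mul_one] at this
    rw [isProbabilityMeasure_iff_real, ofReal_injective this, Nat.sub_zero, div_self (by positivity)]
    simp
  let P : ℕ → ProbabilityMeasure (AddCircle (1 : ℝ)) := fun N => ⟨_, hp N⟩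
  obtain ⟨ρ, -, hρ⟩ := isCompact_univ.ultrafilter_le_nhds ((hyperfilter ℕ).map P) (by simp)
  refine ⟨ρ, ρ.2, fun k hk => ?_⟩
  have h4 := (ProbabilityMeasure.tendsto_iff_forall_integral_rclike_tendsto ℂ).1
    (show Tendsto P (hyperfilter ℕ) (𝓝 ρ) from hρ)
    (BoundedContinuousFunction.mkOfCompact (fourier k))
  have h5 : Tendsto (fun N : ℕ => ((N - k : ℕ) : ℝ) / N * φ 0 k) atTop (𝓝 (φ 0 k)) := by
    have := ((tendsto_const_div_atTop_nhds_zero_nat (k : ℝ)).const_sub 1).mul_const (φ 0 k)
    rw [sub_zero, one_mul] at this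
    refine this.congr' ((eventually_ge_atTop k).mono fun N hN => ?_)
    have : (0 : ℝ) < N := by exact_mod_cast (by omega : 0 < N)
    simp only [Nat.cast_sub hN]
    field_simp
  have h6 := (continuous_ofReal.tendsto _).comp ((tendsto_add_atTop_iff_nat 1).2 h5)
  refine tendsto_nhds_unique h4 ((h6.mono_left Nat.hyperfilter_le_atTop).congr fun N => ?_)
  have := key N k
  rw [if_neg hk, zero_add] at this
  exact this.symm

theorem kron (F : Finset (AddCircle (1 : ℝ))) : ∃ (Z : Type) (_ : MeasurableSpace Z)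
    (lam : Measure Z) (_ : IsProbabilityMeasure lam) (R : Z → Z) (w : F → Z → ℂ), Ergodic R lam ∧
    (∀ t, Measurable (w t)) ∧ (∀ t z, ‖w t z‖ = 1) ∧ (∀ t z, w t (R z) = fourier 1 t.1 * w t z) ∧
    ∀ s t : F, s.1 = -t.1 → ∀ z, w s z = conj (w t z) := by
  set θ : F → AddCircle (1 : ℝ) := fun t => t.1 with hθ
  set G := (AddSubgroup.zmultiples θ).topologicalClosure with hG
  have : CompactSpace G := isCompact_iff_compactSpace.1
    (AddSubgroup.isClosed_topologicalClosure _).isCompact
  borelize ↥G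
  set g : G := ⟨θ, AddSubgroup.le_topologicalClosure _ (AddSubgroup.mem_zmultiples θ)⟩ with hg
  have hp : IsProbabilityMeasure (Measure.addHaarMeasure (⊤ : TopologicalSpace.PositiveCompacts G)) :=
    ⟨by simpa using Measure.addHaarMeasure_self (K₀ := (⊤ : TopologicalSpace.PositiveCompacts G))⟩
  refine ⟨G, inferInstance, _, hp, (g + ·), fun t z => fourier 1 (z.1 t),
    ergodic_add_left_of_denseRange_zsmul ?_ _, fun t => ((fourier 1).continuous.comp
      ((continuous_apply t).comp continuous_subtype_val)).measurable,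
    fun t z => f_norm _ _, fun t z => ?_, fun s t h z => ?_⟩
  · refine Subtype.dense_iff.2 (closure_mono ?_)
    rintro _ ⟨n, rfl⟩
    exact ⟨n • g, ⟨n, rfl⟩, rfl⟩
  · simp [hg, hθ, AddCircle.toCircle_add]
  · have : z.1 s = -z.1 t := closure_minimal (t := {x : F → AddCircle (1 : ℝ) | x s = -x t})
      (by rintro _ ⟨n, rfl⟩; simp [hθ, h]) (isClosed_eq (by fun_prop) (by fun_prop)) z.2
    simp only
    rw [this, ← fourier_neg, fourier_apply, fourier_apply, smul_neg, neg_smul]

theorem kron2 (F : Finset (AddCircle (1 : ℝ))) (hF : ∀ t ∈ F, -t ∈ F) (h0 : 0 ∉ F)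
    (r : AddCircle (1 : ℝ) → ℝ) (hr : ∀ t, 0 ≤ r t) : ∃ (Z : Type) (_ : MeasurableSpace Z)
    (lam : Measure Z) (_ : IsProbabilityMeasure lam) (R : Z → Z) (K : Z → ℝ) (M : ℝ),
    Ergodic R lam ∧ Measurable K ∧ (∀ z, ‖K z‖ ≤ M) ∧ ∫ z, K z ∂lam = 0 ∧
    ∀ n : ℕ, ∫ z, K z * K (R^[n] z) ∂lam = ∑ t ∈ F, r t * (fourier n t).re := by
  obtain ⟨Z, _, lam, _, R, w, hR, hm, hn, hw, hs⟩ := kron F
  have orth : ∀ (u : Z → ℂ) (c : ℂ), Measurable u → c ≠ 1 → (∀ z, u (R z) = c * u z) →
      ∫ z, u z ∂lam = 0 := fun u c hu hc h => by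
    have := int_comp hR.toMeasurePreserving hu
    simp only [h, integral_const_mul] at this
    exact (mul_left_eq_self₀.1 this).resolve_left hc
  set e : F ≃ F := Function.Involutive.toPerm (fun t : F => ⟨-t.1, hF _ t.2⟩) fun t => by simp
    with he
  set m : AddCircle (1 : ℝ) → ℝ := fun t => (r t + r (-t)) / 2 with hm'
  have hm0 : ∀ t, 0 ≤ m t := fun t => div_nonneg (add_nonneg (hr _) (hr _)) two_pos.le
  set K : Z → ℂ := fun z => ∑ t : F, √(m t) * w t z with hK
  have hKc : ∀ z, conj (K z) = K z := fun z => by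
    simp only [hK, map_sum, map_mul, conj_ofReal]
    refine (Fintype.sum_equiv e _ _ fun t => ?_)
    rw [hs (e t) t rfl]
    simp [he, hm', add_comm]
  have hKr : ∀ z, ((K z).re : ℂ) = K z := fun z => conj_eq_iff_re.1 (hKc z)
  have hwn : ∀ (n : ℕ) t z, w t (R^[n] z) = fourier n t.1 * w t z := fun n t z => by
    induction n with
    | zero => simp
    | succ n ih => rw [Function.iterate_succ_apply', hw, ih, Nat.cast_succ, fourier_add]; ring
  have hi : ∀ t, Integrable (w t) lam := fun t => int_bd (hm t) 1 fun z => (hn t z).le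
  have hi2 : ∀ s t, Integrable (fun z => conj (w s z) * w t z) lam := fun s t =>
    int_bd ((continuous_conj.measurable.comp (hm s)).mul (hm t)) 1 fun z => by simp [hn]
  refine ⟨Z, inferInstance, lam, inferInstance, R, fun z => (K z).re, ∑ t : F, √(m t), hR,
    by fun_prop, fun z => (abs_re_le_norm _).trans (norm_sum_le_of_le _ fun t _ => by
      simp [hn, abs_of_nonneg]),
    ofReal_injective ?_, fun n => ?_⟩
  · rw [← integral_complex_ofReal]
    simp only [hKr]
    rw [integral_finsetSum _ fun t _ => (hi t).const_mul _]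
    refine sum_eq_zero fun t _ => ?_
    rw [integral_const_mul, orth _ _ (hm t) (f_ne fun h => h0 (h ▸ t.2)) (hw t), mul_zero]
  have h1 : ((∫ z, (K z).re * (K (R^[n] z)).re ∂lam : ℝ) : ℂ) = ∑ t : F, m t * fourier n t.1 := by
    have h1 : ∀ z, (((K z).re * (K (R^[n] z)).re : ℝ) : ℂ) = ∑ t : F, ∑ s : F,
        (√(m s) * √(m t) * fourier n t.1) * (conj (w s z) * w t z) := fun z => by
      rw [ofReal_mul, hKr, hKr, ← hKc z, mul_comm]
      simp only [hK, map_sum, map_mul, conj_ofReal, sum_mul_sum, hwn]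
      exact sum_congr rfl fun t _ => sum_congr rfl fun s _ => by ring
    rw [← integral_complex_ofReal]
    simp only [h1]
    rw [integral_finsetSum _ fun t _ => integrable_finsetSum _ fun s _ => (hi2 s t).const_mul _]
    refine sum_congr rfl fun t _ => ?_
    rw [integral_finsetSum _ fun s _ => (hi2 s t).const_mul _, sum_eq_single t (fun s _ hst => ?_)
      (by simp), ← ofReal_mul, Real.mul_self_sqrt (hm0 _)]
    · simp [conj_mul', hn]
    · rw [integral_const_mul, orth (fun z => conj (w s z) * w t z) (fourier 1 (t.1 - s.1))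
        ((continuous_conj.measurable.comp (hm s)).mul (hm t))
        (f_ne (sub_ne_zero.2 fun h => hst (Subtype.ext h.symm))) fun z => ?_, mul_zero]
      simp only [hw, f_sub, map_mul]
      ring
  have h2 := congrArg re h1
  rw [ofReal_re, re_sum] at h2
  have h3 : ∑ t : F, r (-t.1) * (fourier n t.1).re = ∑ t : F, r t.1 * (fourier n t.1).re :=
    Fintype.sum_equiv e _ _ fun t => by
      have := f_sub n 0 t.1
      rw [zero_sub] at this
      simp only [he, Function.Involutive.coe_toPerm, this]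
      simp
  rw [h2, ← sum_coe_sort F]
  simp only [re_ofReal_mul, hm', div_mul_eq_mul_div, add_mul, ← sum_div, sum_add_distrib, h3]
  ring

theorem atoms (ρ : Measure (AddCircle (1 : ℝ))) [IsProbabilityMeasure ρ] {η : ℝ} (hη : 0 < η) :
    ∃ (F : Finset (AddCircle (1 : ℝ))) (σ : Measure (AddCircle (1 : ℝ))) (_ : IsFiniteMeasure σ),
      NullSingletonClass σ ∧ (∀ t ∈ F, -t ∈ F) ∧ 0 ∉ F ∧ σ.real Set.univ ≤ 1 ∧ ∀ k : ℤ,
      ∫ s, (fourier k s).re ∂σ + ∑ t ∈ F, ρ.real {t} * (fourier k t).re ≤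
        ∫ s, (fourier k s).re ∂ρ + η := by
  classical
  obtain ⟨e, he⟩ := Set.countable_iff_exists_subset_range.1
    (Measure.countable_meas_level_set_pos (μ := ρ) measurable_id)
  set F : ℕ → Finset (AddCircle (1 : ℝ)) := fun j => (range j).image e ∪ (range j).image (-e)
    with hF
  set C := ⋃ j, (F j : Set (AddCircle (1 : ℝ))) with hC
  have hCm : MeasurableSet C := MeasurableSet.iUnion fun j => (F j).measurableSet
  have h1 : Tendsto (fun j => ρ.real (F j)) atTop (𝓝 (ρ.real C)) :=
    (ENNReal.tendsto_toReal (measure_ne_top _ _)).comp (tendsto_measure_iUnion_atTop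
      fun i j h => coe_subset.2 (union_subset_union (image_subset_image (range_subset_range.2 h))
        (image_subset_image (range_subset_range.2 h))))
  obtain ⟨j, hj⟩ := (h1.eventually (lt_mem_nhds (sub_lt_self (ρ.real C) hη))).exists
  have hjC : (F j : Set (AddCircle (1 : ℝ))) ⊆ C := fun _ h => Set.mem_iUnion.2 ⟨j, h⟩
  refine ⟨(F j).erase 0, ρ.restrict Cᶜ, inferInstance, ⟨fun t => ?_⟩, fun t ht => ?_,
    notMem_erase _ _, ?_, fun k => ?_⟩
  · by_cases ht : t ∈ C
    · rw [Measure.restrict_apply (measurableSet_singleton t), Set.singleton_inter_eq_empty.2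
        (by simpa using ht), measure_empty]
    · refine le_antisymm (Measure.restrict_le_self.trans' le_rfl {t} |>.trans ?_) zero_le
      by_contra h
      obtain ⟨i, rfl⟩ := he (show t ∈ _ from not_le.1 h)
      exact ht (Set.mem_iUnion.2 ⟨i + 1, mem_union_left _ (mem_image_of_mem _ (self_mem_range_succ i))⟩)
  · simp only [hF, mem_erase, mem_union, mem_image, ne_eq, neg_eq_zero, Pi.neg_apply] at ht ⊢
    refine ⟨ht.1, ht.2.symm.imp ?_ ?_⟩ <;> rintro ⟨i, hi, rfl⟩ <;> exact ⟨i, hi, by simp⟩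
  · rw [measureReal_restrict_apply_univ]
    exact measureReal_le_one
  have hi : Integrable (fun s => (fourier k s).re) ρ := cint _ (by fun_prop)
  have h2 := integral_add_compl hCm hi
  have h3 := integral_inter_add_sdiff (s := C) (F j).measurableSet hi.integrableOn
  rw [Set.inter_eq_right.2 hjC, setIntegral_finset _ hi.integrableOn] at h3
  have h4 := norm_setIntegral_le_of_norm_le_const (μ := ρ) (s := C \ F j) (C := 1)
    (f := fun s => (fourier k s).re) (measure_lt_top _ _)
    fun s _ => (abs_re_le_norm _).trans (f_norm _ _).le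
  rw [measureReal_sdiff hjC (F j).measurableSet, Real.norm_eq_abs] at h4
  have h5 : ∑ t ∈ (F j).erase 0, ρ.real {t} * (fourier k t).re ≤
      ∑ t ∈ F j, ρ.real {t} • (fourier k t).re :=
    sum_le_sum_of_subset_of_nonneg (erase_subset _ _) fun t h1 h2 => by
      obtain rfl : t = 0 := by simpa [h1] using h2
      simp
  linarith [(abs_le.1 h4).1]

theorem noise {Y : Type} [MeasurableSpace Y] {μ : Measure Y} [IsProbabilityMeasure μ] {S : Y → Y}
    (hS : Ergodic S μ) {p : Y → ℝ} (hp : Measurable p) (h01 : ∀ y, p y ∈ Set.Icc (0 : ℝ) 1) :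
    ∃ (Y' : Type) (_ : MeasurableSpace Y') (μ' : Measure Y') (_ : IsProbabilityMeasure μ')
      (S' : Y' → Y') (B : Set Y'), Ergodic S' μ' ∧ MeasurableSet B ∧ μ'.real B = ∫ y, p y ∂μ ∧
      ∀ n ≠ 0, μ'.real (B ∩ S'^[n] ⁻¹' B) = ∫ y, p y * p (S^[n] y) ∂μ := by
  set U : Measure ℝ := volume.restrict (Set.Icc 0 1) with hU
  have : IsProbabilityMeasure U := ⟨by simp [hU]⟩
  have h1 : ∀ y, U.real (Set.Iic (p y)) = p y := fun y => by
    rw [hU, measureReal_restrict_apply measurableSet_Iic, show Set.Iic (p y) ∩ Set.Icc 0 1 =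
      Set.Icc 0 (p y) from Set.ext fun t => ⟨fun h => ⟨h.2.1, h.1⟩,
        fun h => ⟨h.2, h.1, h.2.trans (h01 y).2⟩⟩,
      Real.volume_real_Icc, sub_zero, max_eq_left (h01 y).1]
  set π := Measure.infinitePi fun _ : ℕ => U with hπ
  have h2 : ∀ E, MeasurableSet E → (μ.prod π).real E = ∫ y, π.real (Prod.mk y ⁻¹' E) ∂μ :=
    fun E hE => by
      rw [Measure.real, Measure.prod_apply hE, ← integral_toReal
        (measurable_measure_prodMk_left hE).aemeasurable (ae_of_all _ fun _ => measure_lt_top _ _)]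
      rfl
  have hE := prod_erg hS (pi_pres U) (pi_WM U)
  have hB : MeasurableSet {y : Y × (ℕ → ℝ) | y.2 0 ≤ p y.1} :=
    measurableSet_le (by fun_prop) (by fun_prop)
  refine ⟨_, _, _, inferInstance, _, _, hE, hB, ?_, fun n hn => ?_⟩
  · rw [h2 _ hB]
    congr 1
    ext y
    rw [← h1 y, ← Measure.infinitePi_map_eval (fun _ : ℕ => U) 0,
      map_measureReal_apply (measurable_pi_apply 0) measurableSet_Iic]
    rfl
  · rw [h2 _ (hB.inter (hE.measurable.iterate n hB))]
    congr 1
    ext y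
    rw [← h1 y, ← h1 (S^[n] y), ← measureReal_prod_prod,
      ← Measure.infinitePi_map_eval_prod (P := fun _ : ℕ => U) hn.symm,
      map_measureReal_apply (by fun_prop) (measurableSet_Iic.prod measurableSet_Iic)]
    congr 1
    ext u
    simp [Prod.map_iterate, sh_iter]

theorem gsin (σ : Measure (AddCircle (1 : ℝ))) [IsFiniteMeasure σ] [NullSingletonClass σ] (δ : ℝ) :
    ∃ ν : Measure (ℕ → ℝ), IsProbabilityMeasure ν ∧ MeasurePreserving sh ν ν ∧ WM ν ∧
      ∫ x, Real.sin (δ * x 0) ∂ν = 0 ∧ ∀ n : ℕ, ∫ x, Real.sin (δ * x 0) * Real.sin (δ * x n) ∂ν =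
        Real.exp (-(δ ^ 2 * σ.real Set.univ)) * Real.sinh (δ ^ 2 * ∫ s, (fourier n s).re ∂σ) := by
  obtain ⟨ν, h1, h2, h3, h4⟩ := gproc σ
  refine ⟨ν, h1, h2, h3, ?_, fun n => ?_⟩
  · have h5 := integral_im (𝕜 := ℂ) (ex_int (Finsupp.single 0 δ) ν)
    rw [h4, RCLike.im_to_complex, ofReal_im] at h5
    rw [← h5]
    simp only [ex, Finsupp.linearCombination_single, smul_eq_mul, RCLike.im_to_complex,
      exp_ofReal_mul_I_im]
  have h5 : ∀ b : ℝ, b ^ 2 = δ ^ 2 → ∫ x, Real.cos (δ * x 0 + b * x n) ∂ν =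
      Real.exp (-(δ ^ 2 * σ.real Set.univ + δ * b * ∫ s, (fourier n s).re ∂σ)) := fun b hb => by
    have h5 := integral_re (𝕜 := ℂ) (ex_int (Finsupp.single 0 δ + Finsupp.single n b) ν)
    rw [h4, RCLike.re_to_complex, ofReal_re] at h5
    have h6 : ∀ s, ‖tp (Finsupp.single 0 δ + Finsupp.single n b) s‖ ^ 2 =
        2 * δ ^ 2 + 2 * δ * b * (fourier n s).re := fun s => by
      simp only [tp, map_add, Finsupp.linearCombination_single, ContinuousMap.add_apply,
        ContinuousMap.smul_apply, real_smul, Nat.cast_zero, fourier_zero, mul_one]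
      rw [← normSq_eq_norm_sq, normSq_add, normSq_mul, normSq_eq_norm_sq (fourier n s), f_norm]
      simp only [normSq_ofReal, map_mul, conj_ofReal, re_ofReal_mul, conj_re]
      linear_combination hb
    simp only [h6, ex, map_add, Finsupp.linearCombination_single, smul_eq_mul, RCLike.re_to_complex,
      exp_ofReal_mul_I_re] at h5
    rw [h5, integral_add (integrable_const _) (cint _ (by fun_prop)), integral_const,
      integral_const_mul, smul_eq_mul]
    congr 1
    ring
  have h6 : ∀ x : ℕ → ℝ, Real.sin (δ * x 0) * Real.sin (δ * x n) =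
      (Real.cos (δ * x 0 + -δ * x n) - Real.cos (δ * x 0 + δ * x n)) / 2 := fun x => by
    rw [neg_mul, Real.cos_add, Real.cos_add, Real.sin_neg, Real.cos_neg]
    ring
  have h7 : ∀ b : ℝ, Integrable (fun x : ℕ → ℝ => Real.cos (δ * x 0 + b * x n)) ν := fun b =>
    int_bd (by fun_prop) 1 fun x => Real.abs_cos_le_one _
  simp only [h6]
  rw [integral_div, integral_sub (h7 _) (h7 _), h5 _ (by ring), h5 _ rfl, Real.sinh_eq,
    ← mul_div_assoc, mul_sub, ← Real.exp_add, ← Real.exp_add]
  congr 3 <;> ring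

end Pool.Agent.H.MP_e00215_an
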